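import Mathlib

/-! Clique minors: models, and dense graphs. -/

namespace Pool.Agent.H.MP_d4104f_co
open Finset Relation Classical

variable {V W ι : Type} {R : V → V → Prop} {B B' : Set V} {a b c : V}

def Rc (R : V → V → Prop) (B : Set V) : V → V → Prop := ReflTransGen fun x y => R x y ∧ y ∈ B

def Cn (R : V → V → Prop) (B : Set V) : Prop := ∃ a ∈ B, ∀ b ∈ B, Rc R B a b

def KM (R : V → V → Prop) (ι : Type) : Prop := ∃ B : ι → Set V, (∀ i, Cn R (B i)) ∧
  ∀ i j, i ≠ j → Disjoint (B i) (B j) ∧ ∃ a ∈ B i, ∃ b ∈ B j, R a b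

lemma rtg {R' : V → V → Prop} (s : ∀ x y, R x y → R' x y) (h : ReflTransGen R a b) :
    ReflTransGen R' a b := by
  induction h with
  | refl => exact .refl
  | tail _ k ih => exact .tail ih (s _ _ k)

lemma Rc.mono (h : Rc R B a b) (s : B ⊆ B') : Rc R B' a b := rtg (fun _ _ k => ⟨k.1, s k.2⟩) h

lemma Rc.symm (sy : ∀ x y, R x y → R y x) (h : Rc R B a b) (ha : a ∈ B) : Rc R B b a ∧ b ∈ B := by
  induction h with
  | refl => exact ⟨.refl, ha⟩
  | tail _ k ih => exact ⟨.head ⟨sy _ _ k.1, ih.2⟩ ih.1, k.2⟩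

lemma Cn.rc (sy : ∀ x y, R x y → R y x) (h : Cn R B) (ha : a ∈ B) (hb : b ∈ B) : Rc R B a b := by
  obtain ⟨c, hc, h⟩ := h
  exact ReflTransGen.trans ((h a ha).symm sy hc).1 (h b hb)

lemma cn_reach (R : V → V → Prop) (a : V) : Cn R {b | ReflTransGen R a b} :=
  ⟨a, .refl, fun b hb => by
    induction hb with
    | refl => exact .refl
    | tail h k ih => exact .tail ih ⟨k, h.tail k⟩⟩

lemma Cn.mono {R' : V → V → Prop} (h : Cn R B) (s : ∀ x y, R x y → R' x y) : Cn R' B :=
  h.imp fun _ h => ⟨h.1, fun b hb => rtg (fun _ _ k => ⟨s _ _ k.1, k.2⟩) (h.2 b hb)⟩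

lemma cn_star (a : V) (h : ∀ b ∈ B, b = a ∨ R a b) (ha : a ∈ B) : Cn R B :=
  ⟨a, ha, fun b hb => (h b hb).elim (fun e => e ▸ .refl) fun k => .single ⟨k, hb⟩⟩

lemma KM.pull {S : W → W → Prop} (h : KM S ι) (sy : ∀ x y, R x y → R y x) (C : W → Set V)
    (c1 : ∀ w, Cn R (C w)) (c2 : ∀ w w', w ≠ w' → Disjoint (C w) (C w'))
    (c3 : ∀ w w', S w w' → w ≠ w' → ∃ a ∈ C w, ∃ b ∈ C w', R a b) : KM R ι := by
  obtain ⟨B, h1, h2⟩ := h
  refine ⟨fun i => ⋃ w ∈ B i, C w, fun i => ?_, fun i j n => ⟨?_, ?_⟩⟩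
  · obtain ⟨w, hw, h⟩ := h1 i
    obtain ⟨a, ha, -⟩ := c1 w
    have s : ∀ w ∈ B i, C w ⊆ ⋃ w ∈ B i, C w := fun w hw => Set.subset_biUnion_of_mem (u := C) hw
    have : ∀ w', Rc S (B i) w w' → ∀ b ∈ C w', Rc R (⋃ w ∈ B i, C w) a b := fun w' k => by
      induction k with
      | refl => exact fun b hb => ((c1 w).rc sy ha hb).mono (s w hw)
      | @tail u v _ k ih =>
        intro b hb
        by_cases e : u = v
        · exact ih b (e ▸ hb)
        obtain ⟨x, hx, y, hy, r⟩ := c3 u v k.1 e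
        exact ReflTransGen.trans (.tail (ih x hx) ⟨r, s v k.2 hy⟩)
          (((c1 v).rc sy hy hb).mono (s v k.2))
    refine ⟨a, s w hw ha, fun b hb => ?_⟩
    obtain ⟨w', k1, k2⟩ := Set.mem_iUnion₂.mp hb
    exact this w' (h w' k1) b k2
  · simp only [Set.disjoint_iUnion_left, Set.disjoint_iUnion_right]
    exact fun w hw w' hw' => c2 _ _ fun e => Set.disjoint_left.mp (h2 i j n).1 hw' (e ▸ hw)
  · obtain ⟨d, w, hw, w', hw', r⟩ := h2 i j n
    obtain ⟨x, hx, y, hy, r⟩ := c3 w w' r fun e => Set.disjoint_left.mp d hw (e ▸ hw')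
    exact ⟨x, Set.mem_biUnion hw hx, y, Set.mem_biUnion hw' hy, r⟩

lemma KM.emb {S : W → W → Prop} (h : KM S ι) (sy : ∀ x y, R x y → R y x) (f : W → V)
    (i : f.Injective) (c : ∀ w w', S w w' → R (f w) (f w')) : KM R ι :=
  h.pull sy (fun w => {f w}) (fun w => cn_star (f w) (fun _ h => Or.inl h) rfl)
    (fun _ _ n => Set.disjoint_singleton.mpr (i.ne n)) fun w w' r _ => ⟨_, rfl, _, rfl, c w w' r⟩

lemma KM.idx {κ : Type} (h : KM R ι) (f : κ → ι) (i : f.Injective) : KM R κ :=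
  h.elim fun B h => ⟨fun k => B (f k), fun _ => h.1 _, fun _ _ n => h.2 _ _ (i.ne n)⟩

lemma poly [Fintype V] {t : ℕ} (t0 : 0 < t) (I : Finset ι) (F : ι → Finset V) {L : ℝ}
    (h1 : ∀ j ∈ I, L ≤ (F j).card) (h2 : I.card * t * Real.exp (-(L / t)) < 1) :
    ∃ ρ : V → Fin t, ∀ j ∈ I, ∀ i, ∃ x ∈ F j, ρ x = i := by
  by_contra! hc
  have t1 : (0 : ℝ) < t := by exact_mod_cast t0
  have h3 := card_le_card (s := univ) (t := (I ×ˢ univ).biUnion fun q : ι × Fin t =>
      Fintype.piFinset fun x => if x ∈ F q.1 then univ.erase q.2 else univ) fun ρ _ => by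
    obtain ⟨j, hj, i, h⟩ := hc ρ
    refine mem_biUnion.mpr ⟨(j, i), by simp [hj], Fintype.mem_piFinset.mpr fun x => ?_⟩
    split_ifs with k
    · simpa using h x k
    · simp
  have h4 := (Nat.cast_le (α := ℝ)).mpr (h3.trans card_biUnion_le)
  rw [Nat.cast_sum] at h4
  have h5 := h4.trans (sum_le_card_nsmul _ _ (t ^ Fintype.card V * Real.exp (-(L / t))) fun q hq => by
    have : Real.exp (-((F q.1).card / t)) ≤ Real.exp (-(L / t)) := by
      have := h1 _ (mem_product.mp hq).1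
      gcongr
    refine le_trans ?_ (mul_le_mul_of_nonneg_left this (by positivity))
    rw [Fintype.card_piFinset, Nat.cast_prod, ← card_univ, ← prod_const, show -((F q.1).card / t : ℝ) =
      (F q.1).card * -(1 / t) by ring, Real.exp_nat_mul, ← prod_const, ← prod_ite_mem_eq (F q.1),
      ← prod_mul_distrib]
    refine prod_le_prod (fun _ _ => by positivity) fun x _ => ?_
    split_ifs
    · have := mul_le_mul_of_nonneg_left (Real.add_one_le_exp (-(1 / t : ℝ))) t1.le
      rw [mul_add, mul_neg, mul_one_div_cancel t1.ne'] at this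
      rw [card_erase_of_mem (mem_univ _), card_fin, Nat.cast_pred t0]
      linarith
    · simp)
  simp only [card_univ, Fintype.card_fun, Fintype.card_fin, card_product, nsmul_eq_mul] at h5
  push_cast at h5
  have : (0 : ℝ) < t ^ Fintype.card V := by positivity
  nlinarith

lemma half [Fintype V] (sy : ∀ x y, R x y → R y x) (H : Finset V) {d t : ℕ} (t0 : 0 < t)
    (h1 : H.card ≤ 2 * d + 1) (h0 : H.Nonempty) (h2 : ∀ x ∈ H, d ≤ (H.filter (R x)).card)
    (h3 : 24 * t * Real.log d ≤ d) (d0 : 20 ≤ d) : KM R (Fin t) := by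
  let N : V → Finset V := fun x => H.filter (R x)
  let s : V → V → Prop := fun x y => d ≤ 3 * (N x ∩ N y).card + 1
  have ss : ∀ x y, s x y → s y x := fun x y h => by simpa only [s, inter_comm] using h
  have tri : ∀ x ∈ H, ∀ y ∈ H, ∀ z ∈ H, ¬ s x y → ¬ s x z → s y z := fun x hx y hy z hz k1 k2 => by
    have a1 := card_union_add_card_inter (N y) (N z)
    have a2 := card_union_add_card_inter (N x) (N y ∪ N z)
    have a3 := card_union_le (N x ∩ N y) (N x ∩ N z)
    have a4 : (N x ∪ (N y ∪ N z)).card ≤ H.card := card_le_card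
      (union_subset (filter_subset _ _) (union_subset (filter_subset _ _) (filter_subset _ _)))
    rw [← inter_union_distrib_left] at a3
    have := h2 x hx
    have := h2 y hy
    have := h2 z hz
    simp only [s, N] at *
    omega
  have hd : d ≤ H.card := h0.elim fun x hx => (h2 x hx).trans (card_filter_le _ _)
  obtain ⟨U, u0, u1, u2⟩ : ∃ U ⊆ H, d ≤ 3 * U.card ∧ ∀ x ∈ U, ∀ y ∈ U,
      d ≤ 3 * (H.filter fun w => s x w ∧ s y w).card := by
    by_cases k : ∃ x ∈ H, H.card ≤ 3 * (H.filter fun w => ¬ s x w).card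
    · obtain ⟨x, hx, k⟩ := k
      refine ⟨_, filter_subset _ _, hd.trans k, fun y hy z hz => (hd.trans k).trans (Nat.mul_le_mul_left _
        (card_le_card fun w hw => ?_))⟩
      rw [mem_filter] at hy hz hw ⊢
      exact ⟨hw.1, tri x hx y hy.1 w hw.1 hy.2 hw.2, tri x hx z hz.1 w hw.1 hz.2 hw.2⟩
    · push Not at k
      refine ⟨H, subset_rfl, by omega, fun x hx y hy => ?_⟩
      have a1 := k x hx
      have a2 := k y hy
      have a3 := card_filter_add_card_filter_not (s := H) fun w => s x w ∧ s y w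
      have a4 := card_union_le (H.filter fun w => ¬ s x w) (H.filter fun w => ¬ s y w)
      rw [← filter_or] at a4
      simp only [not_and_or] at a3
      omega
  have d1 : (20 : ℝ) ≤ d := by exact_mod_cast d0
  have l1 : 1 ≤ Real.log d := (Real.le_log_iff_exp_le (by linarith)).mpr
    (by linarith [Real.exp_one_lt_d9])
  have t1 : (0 : ℝ) < t := by exact_mod_cast t0
  have t2 : 24 * t ≤ d := by exact_mod_cast (show (24 * t : ℝ) ≤ d by nlinarith)
  obtain ⟨u, u3⟩ := Function.Embedding.exists_of_card_le_finset (α := Fin t) (s := U)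
    (by simp; omega)
  have u4 : ∀ i, u i ∈ U := fun i => u3 ⟨i, rfl⟩
  obtain ⟨ρ, hρ⟩ := poly t0 ((univ ×ˢ H ×ˢ H).filter
      fun q : Bool × V × V => if q.1 then s q.2.1 q.2.2 else q.2.1 ∈ U ∧ q.2.2 ∈ U)
    (fun q => (if q.1 then N q.2.1 ∩ N q.2.2 else H.filter fun w => s q.2.1 w ∧ s q.2.2 w) \
      univ.map u) (L := d / 6) (fun q hq => by
      have a1 := (mem_filter.mp hq).2
      have a2 := le_card_sdiff (univ.map u)
        (if q.1 then N q.2.1 ∩ N q.2.2 else H.filter fun w => s q.2.1 w ∧ s q.2.2 w)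
      rw [div_le_iff₀ (by norm_num)]
      rw [card_map, card_fin] at a2
      norm_cast
      split_ifs at a1 a2 ⊢
      · simp only [s] at a1; omega
      · have := u2 _ a1.1 _ a1.2; omega) (by
      have a1 := card_filter_le (univ ×ˢ H ×ˢ H) fun q : Bool × V × V =>
        if q.1 then s q.2.1 q.2.2 else q.2.1 ∈ U ∧ q.2.2 ∈ U
      simp only [card_product, card_univ, Fintype.card_bool] at a1
      have a2 : 2 * (H.card * H.card) ≤ 20 * (d * d) := by nlinarith
      have a3 := (Nat.cast_le (α := ℝ)).mpr (a1.trans a2)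
      have a4 : Real.exp (-(d / 6 / t)) ≤ Real.exp (-((4 : ℕ) * Real.log d)) := by
        rw [Real.exp_le_exp, neg_le_neg_iff, le_div_iff₀ t1]; push_cast; linarith
      rw [Real.exp_neg ((4 : ℕ) * _), Real.exp_nat_mul, Real.exp_log (by linarith)] at a4
      push_cast at a3
      refine lt_of_le_of_lt (b := (20 * (d * d) : ℝ) * t * ((d : ℝ) ^ 4)⁻¹) (by gcongr) ?_
      rw [mul_inv_lt_iff₀ (by positivity)]
      have : (24 * t : ℝ) ≤ d := by exact_mod_cast t2
      have : (20 * t : ℝ) < d * d := by nlinarith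
      nlinarith [mul_lt_mul_of_pos_left this (show (0 : ℝ) < d * d by positivity)])
  let S : Fin t → V → V → Prop := fun i x y => R x y ∧ y ∉ univ.map u ∧ ρ y = i
  have m : ∀ i x, ReflTransGen (S i) (u i) x → x = u i ∨ x ∉ univ.map u ∧ ρ x = i := fun i x h => by
    rcases h.cases_tail with e | ⟨_, _, k⟩
    exacts [Or.inl e, Or.inr k.2]
  refine ⟨fun i => {x | ReflTransGen (S i) (u i) x}, fun i => (cn_reach _ _).mono fun _ _ h => h.1,
    fun i j n => ⟨Set.disjoint_left.mpr fun x hi hj => ?_, ?_⟩⟩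
  · rcases m i x hi with e | e <;> rcases m j x hj with e' | e'
    · exact n (u.injective (e.symm.trans e'))
    · exact e'.1 (by simp [e])
    · exact e.1 (by simp [e'])
    · exact n (e.2.symm.trans e'.2)
  obtain ⟨w, w1, w2⟩ := hρ (false, u i, u j) (by simp [u4, u0 (u4 _)]) i
  simp only [Bool.false_eq_true, if_false, mem_sdiff, mem_filter] at w1
  obtain ⟨x, x1, x2⟩ := hρ (true, u i, w) (by simp [w1.1, u0 (u4 _)]) i
  obtain ⟨y, y1, y2⟩ := hρ (true, u j, w) (by simp [w1.1, u0 (u4 _)]) i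
  simp only [if_true, mem_sdiff, mem_inter, N, mem_filter] at x1 y1
  exact ⟨y, ((ReflTransGen.single ⟨x1.1.1.2, x1.2, x2⟩).tail ⟨sy _ _ x1.1.2.2, w1.2, w2⟩).tail
    ⟨y1.1.2.2, y1.2, y2⟩, u j, .refl, sy _ _ y1.1.1.2⟩

lemma contract [Fintype V] (sy : ∀ x y, R x y → R y x) (ir : ∀ x, ¬ R x x) (n : a ≠ b)
    (h : R a b ∨ ∀ y, ¬ R b y) : ∃ S : {x // x ≠ b} → {x // x ≠ b} → Prop,
      (∀ x y, S x y → S y x) ∧ (∀ x, ¬ S x x) ∧ (KM S ι → KM R ι) ∧
      (univ.filter fun q : V × V => R q.1 q.2).card ≤ (univ.filter fun q : _ × _ => S q.1 q.2).card +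
        2 * ((univ.filter fun y => R a y ∧ R b y).card + 1) := by
  refine ⟨fun x y => x ≠ y ∧ (R x y ∨ x = a ∧ R b y ∨ y = a ∧ R b x),
    fun x y h => ⟨h.1.symm, h.2.imp (sy _ _) Or.symm⟩, fun x h => h.1 rfl,
    fun k => k.pull sy (fun w => {x | x = w ∨ x = b ∧ w = a ∧ R a b}) (fun w => cn_star w
      (fun x hx => hx.imp id fun e => by rw [e.1, e.2.1]; exact e.2.2) (Or.inl rfl))
      (fun w w' m => Set.disjoint_left.mpr ?_) ?_, ?_⟩
  · rintro x (e | e) (e' | e')
    · exact m (Subtype.ext (e.symm.trans e'))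
    · exact w.2 (e.symm.trans e'.1)
    · exact w'.2 (e'.symm.trans e.1)
    · exact m (Subtype.ext (e.2.1.trans e'.2.1.symm))
  · rintro w w' ⟨-, r | r | r⟩ -
    · exact ⟨w, Or.inl rfl, w', Or.inl rfl, r⟩
    · exact ⟨b, Or.inr ⟨rfl, r.1, h.resolve_right fun k => k _ r.2⟩, w', Or.inl rfl, r.2⟩
    · exact ⟨w, Or.inl rfl, b, Or.inr ⟨rfl, r.1, h.resolve_right fun k => k _ r.2⟩, sy _ _ r.2⟩
  set T := insert a (univ.filter fun y => R a y ∧ R b y)
  have c : (T.image (b, ·) ∪ T.image (·, b)).card ≤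
      2 * ((univ.filter fun y => R a y ∧ R b y).card + 1) := by
    have : T.card ≤ _ := card_insert_le a (univ.filter fun y => R a y ∧ R b y)
    have := card_union_le (T.image (b, ·)) (T.image (·, b))
    have := card_image_le (s := T) (f := (b, ·))
    have := card_image_le (s := T) (f := (·, b))
    omega
  refine (card_le_card_sdiff_add_card (t := T.image (b, ·) ∪ T.image (·, b))).trans
    (add_le_add ?_ c)
  let φ : V → {x // x ≠ b} := fun x => if h : x = b then ⟨a, n⟩ else ⟨x, h⟩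
  have f : ∀ x, (φ x : V) = if x = b then a else x := fun x => by simp only [φ]; split_ifs <;> rfl
  refine card_le_card_of_injOn (Prod.map φ φ) ?_ ?_
  · rintro ⟨x, y⟩ hq
    simp only [coe_sdiff, Set.mem_diff, mem_coe, mem_filter, mem_univ, true_and, mem_union,
      mem_image, T, mem_insert, Prod.mk.injEq, Prod.map, ne_eq, Subtype.ext_iff, f] at hq ⊢
    grind
  · rintro ⟨x, y⟩ hq ⟨x', y'⟩ hq' e
    simp only [coe_sdiff, Set.mem_diff, mem_coe, mem_filter, mem_univ, true_and, mem_union,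
      mem_image, T, mem_insert, Prod.mk.injEq, Prod.map, ne_eq, Subtype.ext_iff, f] at hq hq' e ⊢
    grind

theorem dense {t : ℕ} (t0 : 0 < t) (n : ℕ) : ∀ (V : Type) [Fintype V] (R : V → V → Prop) (d : ℕ),
    Fintype.card V = n + 1 → (∀ x y, R x y → R y x) → (∀ x, ¬ R x x) → 20 ≤ d →
    24 * t * Real.log d ≤ d → 2 * d * (n + 1) ≤ (univ.filter fun q : V × V => R q.1 q.2).card →
    KM R (Fin t) := by
  induction n with
  | zero =>
    intro V _ R d e _ _ d0 _ h
    have := h.trans (card_le_univ _)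
    rw [Fintype.card_prod, e] at this
    omega
  | succ n ih =>
    intro V _ R d0 e sy ir d1 d2 h
    obtain ⟨d, k1, k2, k3⟩ : ∃ d, d0 ≤ d ∧ 2 * d * (n + 2) ≤ (univ.filter fun q : V × V =>
        R q.1 q.2).card ∧ (univ.filter fun q : V × V => R q.1 q.2).card < (n + 2) * (2 * d + 2) := by
      refine ⟨(univ.filter fun q : V × V => R q.1 q.2).card / (2 * (n + 2)),
        (Nat.le_div_iff_mul_le (by omega)).mpr (by linarith), ?_, ?_⟩
      · linarith [Nat.div_mul_le_self (univ.filter fun q : V × V => R q.1 q.2).card (2 * (n + 2))]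
      · linarith [Nat.lt_div_mul_add (a := (univ.filter fun q : V × V => R q.1 q.2).card)
          (show 0 < 2 * (n + 2) by omega)]
    have d3 : 24 * t * Real.log d ≤ d := by
      have a1 : (20 : ℝ) ≤ d0 := by exact_mod_cast d1
      have a2 : (d0 : ℝ) ≤ d := by exact_mod_cast k1
      have e1 := Real.exp_one_lt_d9
      have := Real.log_div_self_antitoneOn (show Real.exp 1 ≤ d0 by linarith)
        (show Real.exp 1 ≤ d by linarith) a2
      rw [← div_le_one (by linarith), mul_div_assoc] at d2 ⊢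
      exact (mul_le_mul_of_nonneg_left this (by positivity)).trans d2
    by_cases k : ∃ a b, a ≠ b ∧ (R a b ∨ ∀ y, ¬ R b y) ∧ (univ.filter fun y => R a y ∧ R b y).card < d
    · obtain ⟨a, b, m, h1, h2⟩ := k
      obtain ⟨S, s1, s2, s3, s4⟩ := contract (ι := Fin t) sy ir m h1
      exact s3 (ih _ S d (by simp [e]) s1 s2 (by omega) d3 (by nlinarith))
    push Not at k
    obtain ⟨b, -, hb⟩ := exists_lt_of_sum_lt (s := univ) (f := fun b => (univ.filter (R b)).card)
      (g := fun _ => 2 * d + 2) (by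
        rw [sum_const, card_univ, e, smul_eq_mul]
        simpa only [card_filter, Fintype.sum_prod_type] using k3)
    obtain ⟨a, m⟩ := Fintype.exists_ne_of_one_lt_card (by omega) b
    refine half sy (univ.filter (R b)) t0 (by omega) ?_ (fun x hx => ?_) d3 (by omega)
    · by_contra c
      have c' : ∀ y, ¬ R b y := fun y r => c ⟨y, by simpa using r⟩
      have := k a b m (Or.inr c')
      simp [c'] at this
      omega
    · have r : R b x := by simpa using hx
      rw [filter_filter]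
      exact k b x (fun e => ir x (e ▸ r)) (Or.inl r)

end Pool.Agent.H.MP_d4104f_co
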