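import Pool.Agent.H.MP_d4104f_co.A

/-! Clique minors from a free action of an elementary abelian group of rank three. -/

namespace Pool.Agent.H.MP_d4104f_co
open Finset Relation Classical

variable {V G : Type} {R : V → V → Prop} {p : ℕ}

lemma grid [Fact p.Prime] : KM (fun c c' : Fin 3 → ZMod p =>
    ∃ i, c' = c + Pi.single i 1 ∨ c = c' + Pi.single i 1) (ZMod p) := by
  have st : ∀ (B : Set (Fin 3 → ZMod p)) c i, (∀ x, c + Pi.single i x ∈ B) → ∀ x,
      Rc (fun c c' : Fin 3 → ZMod p => ∃ i, c' = c + Pi.single i 1 ∨ c = c' + Pi.single i 1) B c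
        (c + Pi.single i x) := fun B c i h x => by
    obtain ⟨k, rfl⟩ := ZMod.natCast_zmod_surjective x
    induction k with
    | zero => simpa [Rc] using ReflTransGen.refl
    | succ k ih => exact .tail ih ⟨⟨i, Or.inl (by rw [Nat.cast_succ, Pi.single_add, add_assoc])⟩, h _⟩
  refine ⟨fun i => {c | c 2 = 0 ∧ c 1 = i ∨ c 2 = 1 ∧ c 0 = i}, fun i => ⟨![i, i, 0], by simp, ?_⟩,
    fun i j n => ⟨Set.disjoint_left.mpr ?_, ![j, i, 0], by simp, ![j, i, 1], by simp, 2,
      Or.inl (by ext k; fin_cases k <;> simp)⟩⟩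
  · rintro c (h | h)
    · rw [show c = ![i, i, 0] + Pi.single 0 (c 0 - i) by ext k; fin_cases k <;> simp [h]]
      exact st _ _ _ (fun x => Or.inl ⟨add_zero _, add_zero _⟩) _
    · rw [show c = ![i, i, 1] + Pi.single 1 (c 1 - i) by ext k; fin_cases k <;> simp [h]]
      exact .head ⟨⟨2, Or.inl (by ext k; fin_cases k <;> simp)⟩, by simp⟩
        (st _ _ _ (fun x => Or.inr ⟨add_zero _, add_zero _⟩) _)
  · rintro c (h | h) (h' | h')
    · exact n (h.2.symm.trans h'.2)
    · exact zero_ne_one (h.1.symm.trans h'.1)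
    · exact zero_ne_one (h'.1.symm.trans h.1)
    · exact n (h.2.symm.trans h'.2)

lemma free [Fact p.Prime] [Finite V] [AddAction (Fin 3 → ZMod p) V] (sy : ∀ x y, R x y → R y x)
    (iv : ∀ (v : Fin 3 → ZMod p) x y, R x y → R (v +ᵥ x) (v +ᵥ y)) (x0 : V)
    (cn : ∀ x y, ReflTransGen R x y) (fr : ∀ (v : Fin 3 → ZMod p) (x : V), v +ᵥ x = x → v = 0) :
    KM R (ZMod p) := by
  have := Fintype.ofFinite V
  obtain ⟨D, hD, mx⟩ := exists_max_image (univ.filter fun D : Finset V => Cn R D ∧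
    ∀ x ∈ D, ∀ v : Fin 3 → ZMod p, v +ᵥ x ∈ D → v = 0) card
    ⟨{x0}, by simpa using ⟨cn_star x0 (by simp) (by simp), fun v => fr v x0⟩⟩
  obtain ⟨⟨r, hr, d1⟩, d2⟩ := (mem_filter.mp hD).2
  have cv : ∀ z, ∃ v : Fin 3 → ZMod p, ∃ x ∈ D, z = v +ᵥ x := fun z => by
    induction cn r z with
    | refl => exact ⟨0, r, hr, by simp⟩
    | @tail y z _ k ih =>
      obtain ⟨v, x, hx, rfl⟩ := ih
      by_contra! hc
      have n : -v +ᵥ z ∉ D := fun h => hc v _ h (by simp)
      refine (mx (insert (-v +ᵥ z) D) (mem_filter.mpr ⟨mem_univ _, ⟨r, by simp [hr], fun b hb => ?_⟩,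
        fun y hy u hu => ?_⟩)).not_gt (by simp [n])
      · have s : (D : Set V) ⊆ (insert (-v +ᵥ z) D : Finset V) := by simp
        rcases mem_insert.mp hb with rfl | hb
        · exact .tail ((d1 x hx).mono s) ⟨by simpa using iv (-v) _ _ k, hb⟩
        · exact (d1 b hb).mono s
      · rcases mem_insert.mp hy with rfl | hy <;> rcases mem_insert.mp hu with e | hu
        · exact fr _ _ e
        · exact (hc (v - u) _ hu (by
            simp only [vadd_vadd]; rw [show v - u + (u + -v) = 0 by abel, zero_vadd])).elim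
        · exact (hc (v + u) _ hy (by rw [add_vadd, e]; simp)).elim
        · exact d2 y hy u hu
  have un : ∀ x ∈ D, ∀ y ∈ D, ∀ u v : Fin 3 → ZMod p, u +ᵥ x = v +ᵥ y → u = v :=
    fun x hx y hy u v e => (neg_add_eq_zero.mp
      (d2 x hx (-v + u) (by rw [add_vadd, e]; simpa using hy))).symm
  let S : Set (Fin 3 → ZMod p) := {s | ∃ x ∈ D, ∃ y ∈ D, R x (s +ᵥ y)}
  have sp : ∀ z, ∀ v, ∀ x ∈ D, z = v +ᵥ x → v ∈ Submodule.span (ZMod p) S := fun z => by
    induction cn r z with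
    | refl => exact fun v x hx e => un r hr x hx 0 v (by simpa using e) ▸ zero_mem _
    | @tail y z _ k ih =>
      rintro v x hx rfl
      obtain ⟨u, w, hw, rfl⟩ := cv y
      simpa using add_mem (ih u w hw rfl) (Submodule.subset_span
        (show -u + v ∈ S from ⟨w, hw, x, hx, by simpa [add_vadd] using iv (-u) _ _ k⟩))
  obtain ⟨b, b1, b2, b3⟩ := exists_linearIndependent (ZMod p) S
  have := Fintype.ofFinite b
  have b4 : Fintype.card b = 3 := by
    have := Module.finrank_eq_card_basis (Module.Basis.mk b3 (by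
      rw [Subtype.range_coe, b2]; exact fun v _ => sp _ v r hr rfl))
    simpa using this.symm
  let e := (Fintype.equivFinOfCardEq b4).symm
  let ψ := Fintype.linearCombination (ZMod p) (Subtype.val ∘ e)
  have i : Function.Injective ψ :=
    (b3.comp e e.injective).fintypeLinearCombination_injective
  have ad : ∀ c i, ∃ a ∈ (ψ c +ᵥ ·) '' (D : Set V), ∃ b ∈ (ψ (c + Pi.single i 1) +ᵥ ·) '' (D : Set V),
      R a b := fun c i => by
    obtain ⟨x, hx, y, hy, k⟩ := b1 (e i).2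
    exact ⟨_, ⟨x, hx, rfl⟩, _, ⟨y, hy, rfl⟩, by simpa [ψ, add_vadd] using iv (ψ c) _ _ k⟩
  refine grid.pull sy (fun c => (ψ c +ᵥ ·) '' D) (fun c => ⟨_, ⟨r, hr, rfl⟩, ?_⟩)
    (fun c c' n => Set.disjoint_left.mpr ?_) ?_
  · rintro _ ⟨x, hx, rfl⟩
    induction d1 x hx with
    | refl => exact .refl
    | tail h k ih => exact .tail (ih (Rc.symm sy h hr).2) ⟨iv _ _ _ k.1, _, k.2, rfl⟩
  · rintro _ ⟨x, hx, rfl⟩ ⟨y, hy, e⟩
    exact n (i (un y hy x hx _ _ e).symm)
  · rintro c c' ⟨i, rfl | rfl⟩ -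
    · exact ad c i
    · obtain ⟨a, ha, b, hb, k⟩ := ad c' i
      exact ⟨b, hb, a, ha, sy _ _ k⟩

end Pool.Agent.H.MP_d4104f_co
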