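import Pool.Agent.H.MP_d4104f_co.B

/-! Clique minors in edge-transitive graphs with a vertex fixed by an element of prime order. -/

namespace Pool.Agent.H.MP_d4104f_co
open Finset Relation Classical

variable {V G : Type} {R : V → V → Prop} {p : ℕ} [Group G] [MulAction G V]

lemma orb [Fact p.Prime] {g : G} (o : orderOf g = p) {y : V} (n : g • y ≠ y) (A : Finset V)
    (h : ∀ k : ℕ, g ^ k • y ∈ A) : p ≤ A.card := by
  have e : Function.minimalPeriod (g • ·) y = p := Function.minimalPeriod_eq_prime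
    (by rw [Function.IsPeriodicPt, smul_iterate, ← o, pow_orderOf_eq_one]; exact one_smul _ _) n
  rw [← card_range p]
  refine card_le_card_of_injOn (fun k => g ^ k • y) (fun k _ => h k) fun k hk l hl q => ?_
  refine Function.iterate_injOn_Iio_minimalPeriod (f := (g • ·)) (x := y) ?_ ?_ (by simpa using q)
  · simpa [e] using hk
  · simpa [e] using hl

lemma star [Fintype V] (O : Finset V) (h : ∀ x ∈ O, ∃ a, R x a) : ∃ c : V → V, ∃ E : Finset (V × V),
    (∀ x ∈ O, R x (c x)) ∧ (∀ a b, (a, b) ∈ E ↔ ∃ x ∈ O, R x b ∧ c x = a) ∧ ∃ U : V → ℕ,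
      ∑ x ∈ O, U x ≤ E.card ∧ ∀ x ∈ O, ∀ a, R x a →
        (univ.filter fun b => R x b ∧ (a, b) ∉ E).card ≤ U x := by
  let E : (V → V) → Finset (V × V) := fun c =>
    ((O ×ˢ univ).filter fun q => R q.1 q.2).image fun q => (c q.1, q.2)
  have m : ∀ c a b, (a, b) ∈ E c ↔ ∃ x ∈ O, R x b ∧ c x = a := fun c a b => by
    simp only [E, mem_image, mem_filter, mem_product, mem_univ, Prod.exists, Prod.mk.injEq]
    grind
  choose! c0 h0 using h
  obtain ⟨c, hc, mx⟩ := exists_max_image (univ.filter fun c : V → V => ∀ x ∈ O, R x (c x))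
    (fun c => (E c).card) ⟨c0, by simpa using h0⟩
  rw [mem_filter] at hc
  let U : V → Finset (V × V) := fun x => (E c).filter fun e => ∀ y ∈ O, R y e.2 → c y = e.1 → y = x
  refine ⟨c, E c, hc.2, m c, fun x => (U x).card, ?_, fun x hx a r => ?_⟩
  · rw [← card_biUnion]
    · exact card_le_card (biUnion_subset.mpr fun _ _ => filter_subset _ _)
    · intro x _ y _ n
      refine disjoint_left.mpr fun e h1 h2 => ?_
      rw [mem_filter] at h1 h2
      obtain ⟨z, k⟩ := (m c e.1 e.2).mp h1.1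
      exact n ((h1.2 z k.1 k.2.1 k.2.2).symm.trans (h2.2 z k.1 k.2.1 k.2.2))
  have h1 := mx (Function.update c x a) (mem_filter.mpr ⟨mem_univ _, fun y hy => by
    by_cases e : y = x
    · rw [e, Function.update_self]; exact r
    · rw [Function.update_of_ne e]; exact hc.2 y hy⟩)
  have h2 : (E c \ U x) ∪ (univ.filter fun b => R x b ∧ (a, b) ∉ E c).image (a, ·) ⊆
      E (Function.update c x a) := by
    rintro ⟨a', b⟩ h
    simp only [mem_union, mem_sdiff, U, mem_filter, mem_image, mem_univ, true_and, Prod.mk.injEq,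
      not_and, not_forall] at h
    rw [m]
    rcases h with h | ⟨b, h, rfl, rfl⟩
    · obtain ⟨y, k1, k2, k3, k4⟩ := h.2 h.1
      exact ⟨y, k1, k2, by rwa [Function.update_of_ne k4]⟩
    · exact ⟨x, hx, h.1, by simp⟩
  have h3 := card_le_card h2
  rw [card_union_of_disjoint (disjoint_left.mpr fun e k1 k2 => by
    obtain ⟨b, k, rfl⟩ := mem_image.mp k2
    exact (mem_filter.mp k).2.2 (mem_sdiff.mp k1).1),
    card_image_of_injective _ (Prod.mk_right_injective a)] at h3
  have := le_card_sdiff (U x) (E c)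
  have := card_filter_le (E c) fun e => ∀ y ∈ O, R y e.2 → c y = e.1 → y = x
  simp only [U] at *
  omega

lemma cardg [Fintype V] (g : G) (P Q : V → Prop) [DecidablePred P] [DecidablePred Q] (h : ∀ x, P x ↔ Q (g • x)) :
    (univ.filter P).card = (univ.filter Q).card :=
  card_bijective (g • ·) (MulAction.bijective g) (by simpa using h)

lemma dbl [Fintype V] (P Q : V → Prop) [DecidablePred Q] (S : V → V → Prop) :
    ∑ x ∈ univ.filter P, (univ.filter fun b => S x b ∧ Q b).card =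
      ∑ b ∈ univ.filter Q, (univ.filter fun x => P x ∧ S x b).card := by
  simp only [card_filter, sum_filter]
  have : ∀ (c : Prop) [Decidable c] (f : V → ℕ), (if c then ∑ x, f x else 0) =
      ∑ x, if c then f x else 0 := fun c _ f => by split_ifs <;> simp
  simp only [this]
  rw [sum_comm]
  refine sum_congr rfl fun _ _ => sum_congr rfl fun _ _ => ?_
  split_ifs <;> simp_all

lemma count [Fintype V] (sy : ∀ x y, R x y → R y x) (O O' : Finset V) (T : V → V → Prop) {D : ℕ}
    (D0 : 0 < D) (p0 : 0 < p) (h1 : ∀ a ∈ O, ∀ x, R a x → x ∈ O')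
    (h2 : ∀ x ∈ O', (univ.filter (R x)).card ≤ D) (h3 : ∀ a ∈ O, p ≤ (univ.filter (R a)).card)
    (h4 : ∀ a ∈ O, ∀ x, R a x → D ≤ 2 * (univ.filter fun b => R x b ∧ ¬ T a b).card)
    (h5 : ∀ a b, ¬ T a b → p ≤ (univ.filter fun c => ¬ T a c ∧
      (univ.filter fun x => R a x ∧ R x c).card = (univ.filter fun x => R a x ∧ R x b).card).card)
    (E : Finset (V × V)) (U : V → ℕ) (h6 : ∑ x ∈ O', U x ≤ E.card)
    (h7 : ∀ x ∈ O', ∀ a, R x a → (univ.filter fun b => R x b ∧ (a, b) ∉ E).card ≤ U x) :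
    p * O.card ≤ 3 * E.card := by
  have k : ∀ a ∈ O, D * p ≤ 2 * ∑ x ∈ univ.filter (R a), U x +
      D * (E.filter fun e => e.1 = a).card := fun a ha => by
    set l : V → ℕ := fun b => (univ.filter fun x => R a x ∧ R x b).card with hl
    set L := ∑ b ∈ univ.filter fun b => ¬ T a b, l b with hL
    have c1 : p * D ≤ 2 * L := by
      rw [hL, hl, ← dbl (R a) (fun b => ¬ T a b) R, mul_sum]
      exact (Nat.mul_le_mul_right _ (h3 a ha)).trans
        (card_nsmul_le_sum _ _ _ fun x hx => h4 a ha x (by simpa using hx))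
    have c2 : ∀ b, ¬ T a b → p * l b ≤ L := fun b n =>
      (Nat.mul_le_mul_right _ (h5 a b n)).trans ((card_nsmul_le_sum _ l _ fun x hx =>
        (mem_filter.mp hx).2.2.ge).trans (sum_le_sum_of_subset
          (monotone_filter_right _ fun _ _ q => q.1)))
    have c3 : ∑ b ∈ univ.filter fun b => (a, b) ∉ E, l b ≤ ∑ x ∈ univ.filter (R a), U x := by
      rw [hl, ← dbl (R a) (fun b => (a, b) ∉ E) R]
      exact sum_le_sum fun x hx => by
        rw [mem_filter] at hx
        exact h7 x (h1 a ha x hx.2) a (sy _ _ hx.2)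
    have c4 : p * ∑ b ∈ univ.filter fun b => ¬ T a b ∧ (a, b) ∈ E, l b ≤
        (E.filter fun e => e.1 = a).card * L := by
      rw [mul_sum]
      refine (sum_le_card_nsmul _ _ L fun b hb => c2 b (mem_filter.mp hb).2.1).trans
        (Nat.mul_le_mul_right _ (card_le_card_of_injOn (a, ·) (fun b hb => ?_)
          (Prod.mk_right_injective a).injOn))
      simpa using (mem_filter.mp hb).2.2
    have c5 : L ≤ ∑ b ∈ univ.filter fun b => (a, b) ∉ E, l b +
        ∑ b ∈ univ.filter fun b => ¬ T a b ∧ (a, b) ∈ E, l b := by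
      simp only [hL, sum_filter, ← sum_add_distrib]
      refine sum_le_sum fun b _ => ?_
      split_ifs <;> simp_all
    generalize (E.filter fun e => e.1 = a).card = e at *
    rcases le_total p e with h | h
    · exact (Nat.mul_le_mul_left _ h).trans (Nat.le_add_left _ _)
    obtain ⟨r, rfl⟩ := Nat.exists_eq_add_of_le h
    refine Nat.le_of_mul_le_mul_left ?_ p0
    nlinarith [Nat.mul_le_mul_left r c1, Nat.mul_le_mul_left (e + r) (c5.trans
      (Nat.add_le_add_right c3 _))]
  have s1 := sum_le_sum k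
  have s2 : ∑ a ∈ O, (E.filter fun e => e.1 = a).card ≤ E.card := by
    rw [← card_biUnion]
    · exact card_le_card (biUnion_subset.mpr fun _ _ => filter_subset _ _)
    · exact fun a _ b _ n => disjoint_left.mpr fun e k1 k2 =>
        n ((mem_filter.mp k1).2.symm.trans (mem_filter.mp k2).2)
  have s3 : ∑ a ∈ O, ∑ x ∈ univ.filter (R a), U x ≤ ∑ x ∈ O', D * U x := by
    rw [sum_comm' (t' := O') (s' := fun x => O.filter (R · x)) (by grind)]
    refine sum_le_sum fun x hx => ?_
    rw [sum_const, smul_eq_mul]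
    exact Nat.mul_le_mul_right _ ((card_le_card (by grind)).trans (h2 x hx))
  rw [sum_add_distrib, sum_const, smul_eq_mul, ← mul_sum, ← mul_sum] at s1
  rw [← mul_sum] at s3
  refine Nat.le_of_mul_le_mul_left ?_ D0
  nlinarith [Nat.mul_le_mul_left D s2, Nat.mul_le_mul_left D h6]

lemma denseO {t d : ℕ} (t0 : 0 < t) (d0 : 20 ≤ d) (d1 : 24 * t * Real.log d ≤ d) {O : Finset V}
    (ne : O.Nonempty) {E : Finset (V × V)} (h : ∀ a b, (a, b) ∈ E → a ∈ O ∧ b ∈ O)
    (c : (2 * d + 1) * O.card ≤ E.card) :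
    KM (fun a b : O => a ≠ b ∧ ((a.1, b.1) ∈ E ∨ (b.1, a.1) ∈ E)) (Fin t) := by
  obtain ⟨n, hn⟩ := Nat.exists_eq_succ_of_ne_zero (card_pos.mpr ne).ne'
  have : ∀ F : Finset (O × O), (∀ q, q ∈ F ↔ q.1 ≠ q.2 ∧ ((q.1.1, q.2.1) ∈ E ∨ (q.2.1, q.1.1) ∈ E)) →
      2 * d * (n + 1) ≤ F.card := fun F hF => by
    have : E ⊆ F.image (fun q => (q.1.1, q.2.1)) ∪ O.image fun a => (a, a) := fun ⟨a, b⟩ k => by
      by_cases e : a = b
      · exact mem_union_right _ (mem_image.mpr ⟨b, (h _ _ k).2, by rw [e]⟩)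
      · exact mem_union_left _ (mem_image.mpr ⟨(⟨_, (h _ _ k).1⟩, ⟨_, (h _ _ k).2⟩),
          by simp [hF, e, k], rfl⟩)
    have := (card_le_card this).trans ((card_union_le _ _).trans
      (add_le_add card_image_le card_image_le))
    rw [hn] at c this
    nlinarith
  exact dense t0 n O _ d (by simpa using hn) (fun _ _ h => ⟨h.1.symm, h.2.symm⟩)
    (fun _ h => h.1 rfl) d0 d1 (this _ (by simp))

def TT (G : Type) [Group G] [MulAction G V] (p : ℕ) (a b : V) : Prop :=
  ∀ g : G, orderOf g = p → g • a = a → g • b = b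

lemma nonfree [Fact p.Prime] [Fintype V] [Finite G] [IsSimpleGroup G] (sy : ∀ x y, R x y → R y x)
    (iv : ∀ (g : G) x y, R x y → R (g • x) (g • y)) (cn : ∀ x y, ReflTransGen R x y) {u w : V}
    (uw : R u w) (et : ∀ x y, R x y → ∃ g : G, x = g • u ∧ y = g • w ∨ y = g • u ∧ x = g • w)
    (nf : ∃ k : G, k • u ≠ u) {g0 : G} (o : orderOf g0 = p) {z : V} (fz : g0 • z = z)
    (sm : (univ.filter (R w)).card < p) {t d : ℕ} (t0 : 0 < t) (d0 : 20 ≤ d)
    (d1 : 24 * t * Real.log d ≤ d) (d2 : 6 * d + 3 ≤ p) : KM R (Fin t) := by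
  have := Fintype.ofFinite G
  have iv' : ∀ (g : G) x y, R x y ↔ R (g • x) (g • y) := fun g x y =>
    ⟨iv g x y, fun h => by simpa using iv g⁻¹ _ _ h⟩
  have nb : ∀ (g : G) x, (univ.filter (R (g • x))).card = (univ.filter (R x)).card := fun g x =>
    (cardg g _ _ (iv' g x)).symm
  have pw : ∀ (g : G) (x : V), g • x = x → ∀ k : ℕ, g ^ k • x = x := fun g x h k =>
    pow_mem (S := MulAction.stabilizer G x) h k
  have fx : ∀ g : G, orderOf g = p → ∀ h : G, g • h • w = h • w → ∀ y, R (h • w) y → g • y = y :=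
    fun g o h e y r => not_not.mp fun n => (orb o n (univ.filter (R (h • w))) fun k => by
      simpa [pw g _ e k] using iv (g ^ k) _ _ r).not_gt (by rwa [nb])
  let T : V → V → Prop := TT G p
  have cj : ∀ (h g : G) (a : V), (h⁻¹ * g * h) • a = a ↔ g • h • a = h • a := fun h g a => by
    rw [mul_smul, mul_smul, inv_smul_eq_iff]
  have co : ∀ h g : G, orderOf (h⁻¹ * g * h) = orderOf g := fun h g => by
    simpa using (MulAut.conj h⁻¹).orderOf_eq g
  have Ti : ∀ (h : G) a b, T a b → T (h • a) (h • b) := fun h a b k g o e =>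
    (cj h g b).mp (k _ (by rwa [co]) ((cj h g a).mpr e))
  have Ti' : ∀ (h : G) a b, T a b ↔ T (h • a) (h • b) := fun h a b =>
    ⟨Ti h a b, fun k => by simpa using Ti h⁻¹ _ _ k⟩
  have Ts : ∀ h k : G, T (h • u) (k • u) → T (k • u) (h • u) := fun h k l g o e => by
    have c : ∀ h : G, (univ.filter fun g : G => orderOf g = p ∧ g • h • u = h • u).card =
        (univ.filter fun g : G => orderOf g = p ∧ g • u = u).card := fun h =>
      card_bijective (MulAut.conj h⁻¹) (MulAut.conj h⁻¹).bijective (by simp [co, cj])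
    have := eq_of_subset_of_card_le (s := univ.filter fun g : G => orderOf g = p ∧ g • h • u = h • u)
      (t := univ.filter fun g : G => orderOf g = p ∧ g • k • u = k • u)
      (monotone_filter_right _ fun g _ q => ⟨q.1, l g q.1 q.2⟩) (by rw [c, c])
    simpa [o, e] using Finset.ext_iff.mp this g
  have cl : ∀ x, (∃ k : G, x = k • u) ∨ ∃ k : G, x = k • w := fun x => by
    rcases (cn u x).cases_tail with e | ⟨y, -, r⟩
    · exact Or.inl ⟨1, by simp [e]⟩
    · obtain ⟨g, h | h⟩ := et y x r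
      exacts [Or.inr ⟨g, h.2⟩, Or.inl ⟨g, h.1⟩]
  obtain ⟨a0, ha, b0, hb, nT⟩ : ∃ a, R w a ∧ ∃ b, R w b ∧ ¬ T a b := by
    by_contra! hc
    have I : ∀ x, g0 • x = x ∧ (∃ k : G, x = k • u) ∨
        (∃ k : G, x = k • w) ∧ ∀ y, R x y → g0 • y = y := fun x => by
      induction cn z x with
      | refl => exact (cl z).imp (fun h => ⟨fz, h⟩) fun ⟨k, h⟩ => ⟨⟨k, h⟩, by
          subst h; exact fx g0 o k fz⟩
      | @tail x y _ r ih =>
        obtain ⟨h, ⟨rfl, rfl⟩ | ⟨rfl, rfl⟩⟩ := et x y r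
        · refine Or.inr ⟨⟨h, rfl⟩, ih.elim (fun k y q => ?_) fun k => fx g0 o h (k.2 _ r)⟩
          simpa using Ti h _ _ (hc u (sy _ _ uw) (h⁻¹ • y) (by simpa using iv h⁻¹ _ _ q)) g0 o k.1
        · exact Or.inl ⟨ih.elim (fun k => fx g0 o h k.1 _ r) fun k => k.2 _ r, h, rfl⟩
    have f : ∀ h : G, g0 • h • u = h • u := fun h => (I (h • w)).elim
      (fun k => fx g0 o h k.1 _ (iv h _ _ (sy _ _ uw))) fun k => k.2 _ (iv h _ _ (sy _ _ uw))
    obtain ⟨k, hk⟩ := nf
    rcases (Subgroup.normalCore_normal (MulAction.stabilizer G u)).eq_bot_or_eq_top with e | e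
    · have : g0 ∈ (MulAction.stabilizer G u).normalCore := fun h => by
        simpa using (cj h⁻¹ g0 u).mpr (f _)
      rw [e, Subgroup.mem_bot] at this
      exact (Fact.out : p.Prime).ne_one (by simp [← o, this])
    · exact hk (Subgroup.normalCore_le _ (e ▸ Subgroup.mem_top k))
  have bp : ∀ h k : G, h • u ≠ k • w := fun h k e => nT fun g o q => by
    have : ∀ y, g • y = y := fun y => by
      induction cn a0 y with
      | refl => exact q
      | @tail x y _ r ih =>
        obtain ⟨l, rfl⟩ : ∃ l : G, x = l • w := (cl x).elim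
          (fun ⟨l, f⟩ => ⟨l * h⁻¹ * k, by simp [f, mul_smul, ← e]⟩) id
        exact fx g o l ih _ r
    exact this _
  have nw : ∀ (k : G) y, R (k • w) y → ∃ g : G, y = g • u ∧ k • w = g • w := fun k y r =>
    (et _ _ r).imp fun g h => h.resolve_left fun h => bp _ _ h.1.symm
  have nu : ∀ (k : G) y, R (k • u) y → ∃ g : G, y = g • w := fun k y r =>
    (et _ _ r).imp fun g h => (h.resolve_right fun h => bp _ _ h.2).2
  obtain ⟨ga, rfl, ea⟩ := nw 1 a0 (by simpa using ha)
  obtain ⟨gb, rfl, eb⟩ := nw 1 b0 (by simpa using hb)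
  rw [one_smul] at ea eb
  have cs : ∀ g : G, (univ.filter fun b => R (g • w) b ∧ T (g • u) b).card =
      (univ.filter fun b => R w b ∧ T u b).card := fun g =>
    (cardg g _ (fun b => R (g • w) b ∧ T (g • u) b) fun x =>
      and_congr (iv' g _ _) (Ti' g _ _)).symm
  have hf : 2 * (univ.filter fun b => R w b ∧ T u b).card ≤ (univ.filter (R w)).card := by
    rw [two_mul]
    nth_rw 1 [← cs ga]
    rw [← cs gb, ← ea, ← eb, ← card_union_of_disjoint (disjoint_left.mpr fun b k1 k2 => ?_)]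
    · exact card_le_card (union_subset (monotone_filter_right _ fun _ _ q => q.1)
        (monotone_filter_right _ fun _ _ q => q.1))
    rw [mem_filter] at k1 k2
    obtain ⟨l, rfl, -⟩ := nw 1 b (by simpa using k1.2.1)
    exact nT fun g o e => Ts _ _ k2.2.2 g o (k1.2.2 g o e)
  have du : p ≤ (univ.filter (R u)).card := by
    obtain ⟨g, o, e, n⟩ : ∃ g : G, orderOf g = p ∧ g • ga • u = ga • u ∧ g • gb • u ≠ gb • u := by
      simpa [T, TT] using nT
    rw [← nb ga]
    refine orb o (y := w) (fun q => n (fx g o 1 (by simpa using q) _ (by simpa using hb))) _ fun k => ?_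
    simpa [pw g _ e k] using iv (g ^ k) _ _ (sy _ _ ha)
  let O := univ.filter fun x => ∃ k : G, x = k • u
  let O' := univ.filter fun x => ∃ k : G, x = k • w
  obtain ⟨c, E, c1, c2, U, c3, c4⟩ := star (R := R) O' fun x hx => by
    obtain ⟨k, rfl⟩ := (mem_filter.mp hx).2
    exact ⟨_, iv k _ _ (sy _ _ uw)⟩
  have mO : ∀ x ∈ O', ∀ a, R x a → a ∈ O := fun x hx a r => by
    obtain ⟨k, rfl⟩ := (mem_filter.mp hx).2
    simpa [O] using (nw k a r).imp fun _ h => h.1
  have ct := count (p := p) sy O O' T (D := (univ.filter (R w)).card)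
    (card_pos.mpr ⟨u, by simpa using sy _ _ uw⟩) (by omega)
    (fun a ha x r => by
      obtain ⟨k, rfl⟩ := (mem_filter.mp ha).2
      simpa [O'] using nu k x r)
    (fun x hx => by
      obtain ⟨k, rfl⟩ := (mem_filter.mp hx).2
      exact (nb k w).le)
    (fun a ha => by
      obtain ⟨k, rfl⟩ := (mem_filter.mp ha).2
      rwa [nb])
    (fun a ha x r => by
      obtain ⟨k, rfl⟩ := (mem_filter.mp ha).2
      obtain ⟨l, rfl⟩ := nu k x r
      obtain ⟨g, e1, e2⟩ := nw l _ (sy _ _ r)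
      rw [e1, e2]
      have := card_filter_add_card_filter_not (s := univ.filter (R (g • w))) (T (g • u))
      rw [filter_filter, filter_filter, cs, nb] at this
      omega)
    (fun a b n => by
      obtain ⟨g, o, e, n'⟩ : ∃ g : G, orderOf g = p ∧ g • a = a ∧ g • b ≠ b := by simpa [T, TT] using n
      refine orb o n' _ fun k => mem_filter.mpr ⟨mem_univ _, ?_, (cardg (g ^ k) _ _ fun x => ?_).symm⟩
      · rwa [Ti' (g ^ k), pw g _ e] at n
      · rw [iv' (g ^ k) a, pw g _ e, ← iv']) E U c3 c4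
  refine (denseO t0 d0 d1 (show O.Nonempty from ⟨u, by simpa [O] using ⟨1, by simp⟩⟩) (E := E)
    (fun a b h => ?_) (by nlinarith [Nat.mul_le_mul_right O.card d2])).pull sy
    (fun a => {x | x = a ∨ x ∈ O' ∧ c x = a}) (fun a => cn_star a.1 (fun b hb =>
      Or.imp_right (fun h : _ ∧ c b = a => h.2 ▸ sy _ _ (c1 b h.1)) hb) (Or.inl rfl))
    (fun a b n => Set.disjoint_left.mpr fun x k1 k2 => n (Subtype.ext ?_)) fun a b r _ => ?_
  · obtain ⟨x, k1, k2, rfl⟩ := (c2 _ _).mp h
    exact ⟨mO x k1 _ (c1 x k1), mO x k1 _ k2⟩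
  · have : ∀ a : O, a.1 ∉ O' := fun a h => by
      obtain ⟨k, e⟩ := (mem_filter.mp a.2).2
      obtain ⟨l, f⟩ := (mem_filter.mp h).2
      exact bp _ _ (e.symm.trans f)
    rcases k1 with k1 | k1 <;> rcases k2 with k2 | k2
    exacts [k1.symm.trans k2, (this a (k1 ▸ k2.1)).elim, (this b (k2 ▸ k1.1)).elim,
      k1.2.symm.trans k2.2]
  · rcases r.2 with h | h <;> obtain ⟨x, k1, k2, k3⟩ := (c2 _ _).mp h
    exacts [⟨x, Or.inr ⟨k1, k3⟩, _, Or.inl rfl, k2⟩, ⟨_, Or.inl rfl, x, Or.inr ⟨k1, k3⟩, sy _ _ k2⟩]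

end Pool.Agent.H.MP_d4104f_co
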