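import Pool.Agent.H.MP_d4104f_co.C

/-! Clique minors in graphs whose automorphism group is simple and contains a cube of prime order. -/

namespace Pool.Agent.H.MP_d4104f_co
open Finset Relation Classical

variable {V G : Type} {R : V → V → Prop} {p : ℕ} [Group G] [MulAction G V]

lemma ordp [Fact p.Prime] {φ : Multiplicative (Fin 3 → ZMod p) →* G} (i : Function.Injective φ)
    {v : Fin 3 → ZMod p} (n : v ≠ 0) : orderOf (φ (.ofAdd v)) = p := by
  rw [orderOf_injective φ i, orderOf_ofAdd_eq_addOrderOf]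
  exact addOrderOf_eq_prime (by ext; simp) n

lemma etf [Fact p.Prime] [Fintype V] [Finite G] [IsSimpleGroup G] (sy : ∀ x y, R x y → R y x)
    (iv : ∀ (g : G) x y, R x y → R (g • x) (g • y)) (cn : ∀ x y, ReflTransGen R x y) {u w : V}
    (uw : R u w) (et : ∀ x y, R x y → ∃ g : G, x = g • u ∧ y = g • w ∨ y = g • u ∧ x = g • w)
    (nf : ∀ x : V, ∃ k : G, k • x ≠ x) {φ : Multiplicative (Fin 3 → ZMod p) →* G}
    (i : Function.Injective φ) {t d : ℕ} (t0 : 0 < t) (tp : t ≤ p) (d0 : 20 ≤ d)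
    (d1 : 24 * t * Real.log d ≤ d) (d2 : 6 * d + 3 ≤ p) : KM R (Fin t) := by
  by_cases fr : ∀ (v : Fin 3 → ZMod p) (x : V), φ (.ofAdd v) • x = x → v = 0
  · letI : AddAction (Fin 3 → ZMod p) V :=
      { vadd := fun v x => φ (.ofAdd v) • x
        zero_vadd := fun x => show φ 1 • x = x by simp
        add_vadd := fun v v' x => show φ (.ofAdd v * .ofAdd v') • x = _ by
          rw [map_mul, mul_smul]; rfl }
    exact (free sy (fun v => iv _) u cn fr).idx _ (Function.Embedding.nonempty_of_card_le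
      (by simpa using tp)).some.injective
  push Not at fr
  obtain ⟨v, z, fz, n⟩ := fr
  by_cases h1 : (univ.filter (R w)).card < p
  · exact nonfree sy iv cn uw et (nf u) (ordp i n) fz h1 t0 d0 d1 d2
  by_cases h2 : (univ.filter (R u)).card < p
  · exact nonfree sy iv cn (sy _ _ uw) (fun x y r => (et x y r).imp fun _ h =>
      h.symm.imp And.symm And.symm) (nf w) (ordp i n) fz h2 t0 d0 d1 d2
  have nb : ∀ (g : G) x, (univ.filter (R x)).card = (univ.filter (R (g • x))).card := fun g x =>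
    cardg g _ _ fun y => ⟨iv g x y, fun h => by simpa using iv g⁻¹ _ _ h⟩
  have dg : ∀ x, p ≤ (univ.filter (R x)).card := fun x => by
    rcases (cn u x).cases_tail with e | ⟨y, -, r⟩
    · rw [e]; omega
    · obtain ⟨g, h | h⟩ := et y x r
      · rw [h.2, ← nb]; omega
      · rw [h.1, ← nb]; omega
  refine (denseO t0 d0 d1 (O := univ) ⟨u, mem_univ _⟩ (E := univ.filter fun q => R q.1 q.2)
    (by simp) ?_).emb sy _ Subtype.val_injective fun a b h => by
      simpa using h.2.elim (fun h => (mem_filter.mp h).2) fun h => sy _ _ (mem_filter.mp h).2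
  rw [card_eq_sum_card_fiberwise (f := Prod.fst) (s := univ.filter _) (t := univ) (by simp), mul_comm]
  refine card_nsmul_le_sum _ _ _ fun x _ => (le_trans (by omega) (dg x)).trans
    (card_le_card_of_injOn (x, ·) (fun y hy => by simpa using hy) (Prod.mk_right_injective x).injOn)

lemma rtg_smul (iv : ∀ (g : G) x y, R x y → R (g • x) (g • y)) (g : G) {x y : V}
    (h : ReflTransGen R x y) : ReflTransGen R (g • x) (g • y) := by
  induction h with
  | refl => exact .refl
  | tail _ k ih => exact .tail ih (iv g _ _ k)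

lemma rtg_symm (sy : ∀ x y, R x y → R y x) {x y : V} (h : ReflTransGen R x y) :
    ReflTransGen R y x := by
  induction h with
  | refl => exact .refl
  | tail _ k ih => exact .head (sy _ _ k) ih

def cmp (iv : ∀ (g : G) x y, R x y → R (g • x) (g • y)) {x : V}
    (h : ∀ g : G, ReflTransGen R x (g • x)) : SubMulAction G V :=
  ⟨{y | ReflTransGen R x y}, fun g _ k => (h g).trans (rtg_smul iv g k)⟩

lemma cmp_cn (sy : ∀ x y, R x y → R y x) (iv : ∀ (g : G) x y, R x y → R (g • x) (g • y)) {x : V}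
    (h : ∀ g : G, ReflTransGen R x (g • x)) (a b : cmp iv h) :
    ReflTransGen (fun a b : cmp iv h => R a b) a b := by
  have : ∀ y (k : ReflTransGen R x y),
      ReflTransGen (fun a b : cmp iv h => R a b) ⟨x, ReflTransGen.refl⟩ ⟨y, k⟩ := fun y k => by
    induction k with
    | refl => exact .refl
    | tail _ k ih => exact .tail ih k
  exact (rtg_symm (fun _ _ => sy _ _) (this _ a.2)).trans (this _ b.2)

def st (sy : ∀ x y, R x y → R y x) : Setoid V :=
  ⟨ReflTransGen R, fun _ => .refl, rtg_symm sy, .trans⟩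

@[reducible] def qa (sy : ∀ x y, R x y → R y x) (iv : ∀ (g : G) x y, R x y → R (g • x) (g • y)) :
    MulAction G (Quotient (st sy)) where
  smul g := Quotient.map (g • ·) fun _ _ => rtg_smul iv g
  one_smul a := Quotient.inductionOn a fun x => congrArg (Quotient.mk _) (one_smul G x)
  mul_smul g h a := Quotient.inductionOn a fun x => congrArg (Quotient.mk _) (mul_smul g h x)

lemma conn [Fact p.Prime] [Finite G] [IsSimpleGroup G] {φ : Multiplicative (Fin 3 → ZMod p) →* G}
    (i : Function.Injective φ) {t d : ℕ} (t0 : 0 < t) (tp : t ≤ p) (d0 : 20 ≤ d)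
    (d1 : 24 * t * Real.log d ≤ d) (d2 : 6 * d + 3 ≤ p) (n : ℕ) : ∀ (V : Type) [Finite V]
    [MulAction G V] (R : V → V → Prop), Nat.card V < n → (∀ x y, R x y → R y x) →
    (∀ (g : G) x y, R x y → R (g • x) (g • y)) → (∀ x y, ReflTransGen R x y) →
    (∀ x : V, ∃ k : G, k • x ≠ x) → V → KM R (Fin t) := by
  induction n with
  | zero => exact fun _ _ _ _ h => absurd h (Nat.not_lt_zero _)
  | succ n ih =>
  intro V _ _ R c sy iv cn nf x0
  obtain ⟨u, w, uw, ne⟩ : ∃ u w, R u w ∧ u ≠ w := by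
    by_contra! h
    obtain ⟨k, hk⟩ := nf x0
    have : ∀ y, y = x0 := fun y => by
      induction cn x0 y with
      | refl => rfl
      | tail _ k ih => exact (h _ _ k).symm.trans ih
    exact hk (this _)
  let F : V → V → Prop := fun x y => ∃ g : G, x = g • u ∧ y = g • w ∨ y = g • u ∧ x = g • w
  have Fs : ∀ x y, F x y → F y x := fun x y h => h.imp fun _ => Or.symm
  have Fi : ∀ (g : G) x y, F x y → F (g • x) (g • y) := fun g x y ⟨k, h⟩ =>
    ⟨g * k, by simp only [mul_smul]; grind⟩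
  have FR : ∀ x y, F x y → R x y := by
    rintro x y ⟨g, ⟨rfl, rfl⟩ | ⟨rfl, rfl⟩⟩
    exacts [iv g _ _ uw, sy _ _ (iv g _ _ uw)]
  have Fe : F u w := ⟨1, by simp⟩
  by_cases h : ∃ x, ∀ g : G, ReflTransGen F x (g • x)
  · obtain ⟨x, h⟩ := h
    have hu : u ∈ cmp Fi h := by
      obtain ⟨k, hk⟩ := nf x
      obtain ⟨y, ⟨g, r⟩, -⟩ := (h k).cases_head.resolve_left hk.symm
      have : g • u ∈ cmp Fi h := r.elim (fun r => r.1 ▸ ReflTransGen.refl) fun r =>
        ReflTransGen.single ⟨g, Or.inr ⟨rfl, r.2⟩⟩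
      simpa using (cmp Fi h).smul_mem g⁻¹ this
    have := Fintype.ofFinite (cmp Fi h)
    exact (etf (R := fun a b : cmp Fi h => F a b) (fun _ _ => Fs _ _) (fun g _ _ => Fi g _ _)
      (cmp_cn Fs Fi h) (u := ⟨u, hu⟩) (w := ⟨w, ReflTransGen.tail hu Fe⟩) Fe
      (fun x y r => by simpa [Subtype.ext_iff] using r)
      (fun x => by simpa [Subtype.ext_iff] using nf x) i t0 tp d0 d1 d2).emb sy _
      Subtype.val_injective fun _ _ => FR _ _
  push Not at h
  letI := qa Fs Fi
  refine (ih (Quotient (st Fs)) (fun a b => ∃ x y, ⟦x⟧ = a ∧ ⟦y⟧ = b ∧ R x y) ?_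
    (fun _ _ ⟨x, y, k1, k2, k3⟩ => ⟨y, x, k2, k1, sy _ _ k3⟩) ?_ ?_ ?_ ⟦u⟧).pull sy
    (fun a => {x | ⟦x⟧ = a}) ?_ (fun a b n => Set.disjoint_left.mpr fun x k1 k2 =>
      n (Eq.trans (Eq.symm k1) k2)) fun _ _ ⟨x, y, k1, k2, k3⟩ _ => ⟨x, k1, y, k2, k3⟩
  · refine lt_of_lt_of_le ?_ (Nat.le_of_lt_succ c)
    refine lt_of_le_of_ne (Nat.card_le_card_of_surjective _ Quotient.mk_surjective) fun e => ne ?_
    exact ((Nat.bijective_iff_surjective_and_card (Quotient.mk (st Fs))).mpr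
      ⟨Quotient.mk_surjective, e.symm⟩).1 (Quotient.sound (ReflTransGen.single Fe))
  · rintro g _ _ ⟨x, y, rfl, rfl, r⟩
    exact ⟨_, _, rfl, rfl, iv g _ _ r⟩
  · rintro ⟨x⟩ ⟨y⟩
    induction cn x y with
    | refl => exact .refl
    | tail _ k ih => exact .tail ih ⟨_, _, rfl, rfl, k⟩
  · rintro ⟨x⟩
    exact (h x).imp fun g k e => k (Quotient.exact e.symm)
  · rintro ⟨x⟩
    have : {y | (⟦y⟧ : Quotient (st Fs)) = ⟦x⟧} = {y | ReflTransGen F x y} :=
      Set.ext fun y => ⟨fun e => Quotient.exact (Eq.symm e), fun e => (Quotient.sound e).symm⟩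
    exact this ▸ (cn_reach F x).mono FR

lemma full [Fact p.Prime] [Finite G] [IsSimpleGroup G] {φ : Multiplicative (Fin 3 → ZMod p) →* G}
    (i : Function.Injective φ) {t d : ℕ} (t0 : 0 < t) (tp : t ≤ p) (d0 : 20 ≤ d)
    (d1 : 24 * t * Real.log d ≤ d) (d2 : 6 * d + 3 ≤ p) [Finite V] (sy : ∀ x y, R x y → R y x)
    (iv : ∀ (g : G) x y, R x y → R (g • x) (g • y)) {x0 : V} (nf : ∃ k : G, k • x0 ≠ x0)
    (fa : ∀ τ : V → V, τ.Involutive → (∀ x y, R x y → R (τ x) (τ y)) → ∃ g : G, ∀ x, g • x = τ x) :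
    KM R (Fin t) := by
  let N : V → Prop := fun x => ∃ k : G, k • x ≠ x
  have Ni : ∀ (g : G) x, N x → N (g • x) := fun g x ⟨k, h⟩ =>
    ⟨g * k * g⁻¹, by simpa [mul_smul] using h⟩
  let F : V → V → Prop := fun x y => R x y ∧ N x ∧ N y
  have Fs : ∀ x y, F x y → F y x := fun x y h => ⟨sy _ _ h.1, h.2.2, h.2.1⟩
  have Fi : ∀ (g : G) x y, F x y → F (g • x) (g • y) := fun g x y h =>
    ⟨iv g _ _ h.1, Ni g _ h.2.1, Ni g _ h.2.2⟩
  have FN : ∀ x y, N x → ReflTransGen F x y → N y := fun x y h k =>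
    k.cases_tail.elim (fun e => e ▸ h) fun ⟨_, _, k⟩ => k.2.2
  by_cases h : ∀ g : G, ReflTransGen F x0 (g • x0)
  · exact (conn i t0 tp d0 d1 d2 _ (cmp Fi h) (fun a b => F a b) (Nat.lt_succ_self _)
      (fun _ _ => Fs _ _) (fun g _ _ => Fi g _ _) (cmp_cn Fs Fi h)
      (fun x => by simpa [Subtype.ext_iff] using FN _ _ nf x.2) ⟨x0, ReflTransGen.refl⟩).emb sy _
      Subtype.val_injective fun _ _ h => h.1
  push Not at h
  obtain ⟨g, h⟩ := h
  letI := qa Fs Fi
  have qs : ∀ (k : G) (x : V), k • (⟦x⟧ : Quotient (st Fs)) = ⟦k • x⟧ := fun _ _ => rfl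
  let a : Quotient (st Fs) := ⟦x0⟧
  have n : a ≠ g • a := fun e => h (Quotient.exact e)
  let τ : V → V := fun x => if ⟦x⟧ = a then g • x else if ⟦x⟧ = g • a then g⁻¹ • x else x
  have Na : ∀ (k : G) x, ⟦x⟧ = k • a → N x := fun k x e =>
    FN _ _ (Ni k _ nf) (Quotient.exact e.symm)
  obtain ⟨k, hk⟩ := fa τ (fun x => by
    by_cases e : ⟦x⟧ = a
    · simp [τ, e, ← qs, n.symm]
    by_cases e' : ⟦x⟧ = g • a <;> simp [τ, e, e', ← qs, n.symm]) fun x y r => by
      have i1 := iv g _ _ r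
      have i2 := iv g⁻¹ _ _ r
      by_cases c : N x ∧ N y
      · have : (⟦x⟧ : Quotient (st Fs)) = ⟦y⟧ := Quotient.sound (ReflTransGen.single ⟨r, c⟩)
        simp only [τ, this]
        split_ifs <;> assumption
      have := Na 1 x
      have := Na 1 y
      have := Na g x
      have := Na g y
      simp only [N, one_smul, not_and_or, not_exists, not_not] at *
      grind
  have := Fintype.ofFinite (Quotient (st Fs))
  let f := Equiv.Perm.sign.comp (MulAction.toPermHom G (Quotient (st Fs)))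
  have e : MulAction.toPermHom G (Quotient (st Fs)) k = Equiv.swap a (g • a) := by
    ext ⟨x⟩
    change ⟦k • x⟧ = Equiv.swap a (g • a) ⟦x⟧
    simp only [hk, τ, Equiv.swap_apply_def]
    split_ifs with e e'
    · rw [← qs, e]
    · rw [← qs, e', inv_smul_smul]
    · rfl
  rcases (MonoidHom.normal_ker f).eq_bot_or_eq_top with c | c
  · have := orderOf_injective f ((MonoidHom.ker_eq_bot_iff f).mp c) (φ (.ofAdd 1))
    rw [ordp i one_ne_zero] at this
    have := Nat.le_of_dvd two_pos (this ▸ orderOf_dvd_of_pow_eq_one (Int.units_sq _))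
    omega
  · have : f k = 1 := by rw [← MonoidHom.mem_ker, c]; trivial
    simp [f, e, Equiv.Perm.sign_swap n] at this

end Pool.Agent.H.MP_d4104f_co
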