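import Pool.Agent.H.MP_d4104f_co.D

/-! A graph with prescribed automorphism group and no large clique minor. -/

namespace Pool.Agent.H.MP_d4104f_co
open Finset Relation Classical Sum

variable {V G Ω : Type} {n k : ℕ} [Group G] [MulAction G Ω]

lemma cn_iff (X : SimpleGraph V) (B : Set V) : (X.induce B).Connected ↔ Cn X.Adj B := by
  rw [SimpleGraph.connected_iff_exists_forall_reachable]
  simp only [SimpleGraph.reachable_iff_reflTransGen]
  constructor
  · rintro ⟨a, h⟩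
    refine ⟨a, a.2, fun b hb => ?_⟩
    have : ∀ b : B, Rc X.Adj B a b := fun b => by
      induction h b with
      | refl => exact .refl
      | @tail _ c _ k ih => exact .tail ih ⟨k, c.2⟩
    exact this ⟨b, hb⟩
  · rintro ⟨a, ha, h⟩
    refine ⟨⟨a, ha⟩, fun ⟨b, hb⟩ => ?_⟩
    induction h b hb with
    | refl => exact .refl
    | tail h k ih => exact .tail (ih (Rc.symm (fun _ _ => X.adj_symm) h ha).2) k.1

lemma km_le [Finite V] {R : V → V → Prop} (h : KM R (Fin k)) : k ≤ Nat.card V := by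
  obtain ⟨B, h1, h2⟩ := h
  choose a ha _ using h1
  simpa using Nat.card_le_card_of_injective a fun i j e => not_not.mp fun n =>
    Set.disjoint_left.mp (h2 i j n).1 (ha i) (e ▸ ha j)

def ad (G : Type) [Group G] [MulAction G Ω] (e : Fin n → Ω) :
    Ω ⊕ G × Fin (n + 1) → Ω ⊕ G × Fin (n + 1) → Prop
  | inl _, inl _ => False
  | inl ω, inr q => ∃ j : Fin n, q.2.val = j + 1 ∧ ω = q.1 • e j
  | inr q, inl ω => ∃ j : Fin n, q.2.val = j + 1 ∧ ω = q.1 • e j
  | inr q, inr r => q.1 = r.1 ∧ (q.2.val + 1 = r.2 ∨ r.2.val + 1 = q.2)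

def gr (G : Type) [Group G] [MulAction G Ω] (e : Fin n → Ω) : SimpleGraph (Ω ⊕ G × Fin (n + 1)) where
  Adj := ad G e
  symm := ⟨by rintro (a | a) (b | b) <;> simp only [ad] <;> grind⟩
  loopless := ⟨by rintro (a | a) <;> simp [ad]⟩

lemma gr_km (e : Fin n → Ω) [Finite Ω] (h : KM (ad G e) (Fin k)) : k ≤ Nat.card Ω + 2 := by
  obtain ⟨B, h1, h2⟩ := h
  have := Fintype.ofFinite Ω
  let P := univ.filter fun i => ∃ ω, inl ω ∈ B i
  have c1 : P.card ≤ Nat.card Ω := by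
    choose a ha using fun i : P => (mem_filter.mp i.2).2
    simpa using Nat.card_le_card_of_injective a fun i j e => Subtype.ext (not_not.mp fun n =>
      Set.disjoint_left.mp (h2 i j n).1 (ha i) (e ▸ ha j))
  have c2 := card_add_card_compl P
  rw [Fintype.card_fin] at c2
  by_contra! c
  obtain ⟨i1, i2, i3, m1, m2, m3, n1, n2, n3⟩ := two_lt_card_iff.mp (show 2 < Pᶜ.card by omega)
  have m : ∀ i ∈ Pᶜ, ∀ ω, inl ω ∉ B i := by simp [P]
  have I : ∀ i ∈ Pᶜ, ∀ a b c, inr a ∈ B i → inr b ∈ B i → inr c ∉ B i →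
      a.1 = b.1 ∧ (a.1 = c.1 → (a.2.val < c.2 ↔ b.2.val < c.2)) := fun i hi a b c ha hb hc => by
    have : ∀ y, Rc (ad G e) (B i) (inr a) y → ∀ b, y = inr b →
        a.1 = b.1 ∧ (a.1 = c.1 → (a.2.val < c.2 ↔ b.2.val < c.2)) := fun y r => by
      induction r with
      | refl => simp
      | @tail x y r k ih =>
        rintro b rfl
        have hx := (Rc.symm (gr G e).symm.symm r ha).2
        rcases x with x | x
        · exact (m i hi _ hx).elim
        have k1 : x.1 = b.1 ∧ (x.2.val + 1 = b.2 ∨ b.2.val + 1 = x.2) := k.1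
        have k2 := ih x rfl
        have n : ∀ y, inr y ∈ B i → y.1 = c.1 → y.2.val ≠ c.2 := fun y h e f =>
          hc (Prod.ext e (Fin.ext f) ▸ h)
        refine ⟨k2.1.trans k1.1, fun e => ?_⟩
        have := n x hx (k2.1 ▸ e)
        have := n b k.2 (k1.1 ▸ k2.1 ▸ e)
        have := k2.2 e
        omega
    exact this _ ((h1 i).rc (gr G e).symm.symm ha hb) b rfl
  have J : ∀ i ∈ Pᶜ, ∀ j ∈ Pᶜ, i ≠ j → (∀ x, x ∈ B i → x ∉ B j) ∧ ∃ a b, inr a ∈ B i ∧ inr b ∈ B j ∧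
      a.1 = b.1 ∧ (a.2.val + 1 = b.2 ∨ b.2.val + 1 = a.2) := fun i hi j hj n => by
    obtain ⟨d, a | a, ha, b | b, hb, r⟩ := h2 i j n
    exacts [r.elim, (m i hi _ ha).elim, (m j hj _ hb).elim,
      ⟨fun _ h => Set.disjoint_left.mp d h, a, b, ha, hb, r⟩]
  obtain ⟨d1, a1, b1, k1⟩ := J _ m1 _ m2 n1
  obtain ⟨d2, a2, b2, k2⟩ := J _ m1 _ m3 n2
  obtain ⟨d3, a3, b3, k3⟩ := J _ m2 _ m3 n3
  have e1 := I _ m1 a1 a2 b1 k1.1 k2.1 fun h => d1 _ h k1.2.1
  have e2 := I _ m1 a1 a2 b2 k1.1 k2.1 fun h => d2 _ h k2.2.1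
  have e3 := I _ m2 b1 a3 a1 k1.2.1 k3.1 (d1 _ k1.1)
  have e4 := I _ m2 b1 a3 b3 k1.2.1 k3.1 fun h => d3 _ h k3.2.1
  have e5 := I _ m3 b2 b3 a2 k2.2.1 k3.2.1 (d2 _ k2.1)
  have e6 := I _ m3 b2 b3 a3 k2.2.1 k3.2.1 (d3 _ k3.1)
  have := e1.2 k1.2.2.1
  have := e2.2 (e2.1.trans k2.2.2.1)
  have := e3.2 k1.2.2.1.symm
  have := e4.2 (e4.1.trans k3.2.2.1)
  have := e5.2 k2.2.2.1.symm
  have := e6.2 (e6.1.trans k3.2.2.1.symm)
  have D : ∀ {i j : Fin k} {a b : G × Fin (n + 1)}, (∀ x, x ∈ B i → x ∉ B j) → inr a ∈ B i →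
      inr b ∈ B j → a.1 = b.1 → a.2.val ≠ b.2 := fun d ha hb e f =>
    d _ ha (Prod.ext e (Fin.ext f) ▸ hb)
  have := D d3 k1.2.1 k2.2.1 (k1.2.2.1.symm.trans (e1.1.trans k2.2.2.1))
  have := D d2 k1.1 k3.2.1 (k1.2.2.1.trans (e3.1.trans k3.2.2.1))
  have := D d1 k2.1 k3.1 (e1.1.symm.trans (k1.2.2.1.trans e3.1))
  have := k1.2.2.2
  have := k2.2.2.2
  have := k3.2.2.2
  omega

def act (e : Fin n → Ω) : G →* (gr G e ≃g gr G e) where
  toFun g := ⟨Equiv.sumCongr (MulAction.toPerm g) (Equiv.prodCongr (Equiv.mulLeft g) (Equiv.refl _)),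
    by rintro (a | a) (b | b) <;> simp [gr, ad, mul_smul]⟩
  map_one' := by ext (a | a) <;> simp
  map_mul' g h := by ext (a | a) <;> simp [mul_smul, Prod.map, mul_assoc]

lemma gr_aut [Finite G] [FaithfulSMul G Ω] (c : 4 ≤ Nat.card G) (e : Fin n ≃ Ω) :
    Nonempty ((gr G e ≃g gr G e) ≃* G) := by
  refine ⟨(MulEquiv.ofBijective (act e) ⟨(injective_iff_map_eq_one _).mpr fun g h => ?_,
    fun f => ?_⟩).symm⟩
  · simpa [act] using congr($h (inr (1, 0)))
  have p1 : ∀ (f : gr G e ≃g gr G e) ω, ∃ ω', f (inl ω) = inl ω' := fun f ω => by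
    rcases h : f (inl ω) with ω' | ⟨τ, i⟩
    · exact ⟨ω', rfl⟩
    let g : G → Ω ⊕ G × Fin (n + 1) := fun σ => f (inr (σ, (e.symm (σ⁻¹ • ω)).succ))
    have gi : g.Injective := fun σ σ' k => by
      have := f.injective k
      simp only [inr.injEq, Prod.mk.injEq] at this
      exact this.1
    let s : Ω ⊕ G × Fin (n + 1) → Fin 3 := Sum.elim (fun _ => 0) fun q => if q.2 < i then 1 else 2
    have : ∀ σ, ad G e (inr (τ, i)) (g σ) := fun σ => by
      rw [← h]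
      exact f.map_adj_iff.mpr ⟨_, rfl, by simp⟩
    have := Nat.card_le_card_of_injective (s ∘ g) fun σ σ' k => gi (by
      have k1 := this σ
      have k2 := this σ'
      simp only [Function.comp] at k
      generalize g σ = x, g σ' = y at *
      rcases x with x | x <;> rcases y with y | y <;> simp only [s, ad, elim_inl, elim_inr] at * <;>
        grind)
    rw [Nat.card_fin] at this
    omega
  have p2 : ∀ q, ∃ r, f (inr q) = inr r := fun q => by
    rcases h : f (inr q) with ω | r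
    · obtain ⟨ω', k⟩ := p1 f.symm ω
      simp [← h] at k
    · exact ⟨r, rfl⟩
  choose a ha using p1 f
  choose b hb using p2
  have A : ∀ x y, ad G e (f x) (f y) ↔ ad G e x y := fun x y => f.map_adj_iff
  have p3 : ∀ σ (i : ℕ) (h : i < n + 1), b (σ, ⟨i, h⟩) = ((b (σ, 0)).1, ⟨i, h⟩) := fun σ i => by
    induction i using Nat.strong_induction_on with | _ i ih =>
    intro h
    rcases i with _ | i
    · refine Prod.ext rfl (Fin.ext (Nat.eq_zero_of_not_pos fun k => ?_))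
      obtain ⟨ω, l⟩ := p1 f.symm ((b (σ, 0)).1 • e ⟨(b (σ, 0)).2 - 1, by omega⟩)
      have := (A (inr (σ, 0)) (inl ω)).mp (by
        rw [hb, ← l, RelIso.apply_symm_apply]
        exact ⟨_, by simp at k ⊢; omega, rfl⟩)
      simp [ad] at this
    have := (A (inr (σ, ⟨i, by omega⟩)) (inr (σ, ⟨i + 1, h⟩))).mpr ⟨rfl, Or.inl rfl⟩
    rw [hb, hb, ih i (by omega)] at this
    obtain ⟨k1, k2 | k2⟩ := this
    · exact Prod.ext k1.symm (Fin.ext k2.symm)
    have := f.injective (a₁ := inr (σ, ⟨i + 1, h⟩)) (a₂ := inr (σ, ⟨i - 1, by omega⟩)) (by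
      rw [hb, hb, ih (i - 1) (by omega)]
      exact congrArg _ (Prod.ext k1.symm (Fin.ext (by simp at k2 ⊢; omega))))
    simp at this
    omega
  have p4 : ∀ σ j, a (σ • e j) = (b (σ, 0)).1 • e j := fun σ j => by
    have := (A (inl (σ • e j)) (inr (σ, ⟨j + 1, by omega⟩))).mpr ⟨j, rfl, rfl⟩
    rw [ha, hb, p3] at this
    obtain ⟨l, k1, k2⟩ := this
    rwa [← Fin.ext (Nat.succ_injective k1)] at k2
  refine ⟨(b (1, 0)).1, RelIso.ext ?_⟩
  have p5 : ∀ ω, a ω = (b (1, 0)).1 • ω := fun ω => by simpa using p4 1 (e.symm ω)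
  rintro (ω | ⟨σ, i, h⟩)
  · simp [act, ha, p5]
  · have : (b (1, 0)).1 * σ = (b (σ, 0)).1 := eq_of_smul_eq_smul fun ω : Ω => by
      simpa [p5, mul_smul] using p4 σ (e.symm ω)
    simp [act, this, hb, p3 σ i h]

end Pool.Agent.H.MP_d4104f_co
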