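import Pool.Agent.H.MP_d4104f_co.E

/-! The alternating groups. -/

namespace Pool.Agent.H.MP_d4104f_co
open Finset Relation Classical

variable {V G : Type} {n p : ℕ} [Group G]

lemma lower [Fact p.Prime] [Finite G] [IsSimpleGroup G] {φ : Multiplicative (Fin 3 → ZMod p) →* G}
    (i : Function.Injective φ) {t d : ℕ} (t0 : 0 < t) (tp : t ≤ p) (d0 : 20 ≤ d)
    (d1 : 24 * t * Real.log d ≤ d) (d2 : 6 * d + 3 ≤ p) [Finite V] (X : SimpleGraph V)
    (e : (X ≃g X) ≃* G) : KM X.Adj (Fin t) := by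
  letI : MulAction G V :=
    { smul := fun g x => e.symm g x
      one_smul := fun x => show e.symm 1 x = x by simp
      mul_smul := fun g h x => show e.symm (g * h) x = _ by rw [map_mul]; rfl }
  obtain ⟨k, hk⟩ := exists_ne (1 : G)
  obtain ⟨x0, h⟩ : ∃ x : V, k • x ≠ x := by
    by_contra! h
    exact hk ((map_eq_one_iff _ e.symm.injective).mp (RelIso.ext h))
  refine full i t0 tp d0 d1 d2 (fun _ _ => X.adj_symm) (fun g _ _ => (e.symm g).map_adj_iff.mpr)
    ⟨k, h⟩ fun τ j r => ⟨e ⟨j.toPerm, fun {a b} => ⟨fun h => ?_, r a b⟩⟩, fun x => ?_⟩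
  · simpa [j a, j b] using r _ _ h
  · change e.symm (e _) x = _
    simp

lemma cube [Fact p.Prime] (o : Odd p) (h : 3 * p ≤ n) :
    ∃ φ : Multiplicative (Fin 3 → ZMod p) →* alternatingGroup (Fin n), Function.Injective φ := by
  letI : MulAction (Multiplicative (Fin 3 → ZMod p)) (Fin 3 × ZMod p) :=
    { smul := fun v x => (x.1, v.toAdd x.1 + x.2)
      one_smul := fun x => Prod.ext rfl (zero_add _)
      mul_smul := fun v w x => Prod.ext rfl (add_assoc _ _ _) }
  obtain ⟨ι⟩ : Nonempty (Fin 3 × ZMod p ↪ Fin n) :=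
    Function.Embedding.nonempty_of_card_le (by simpa using h)
  let ψ := (Equiv.Perm.viaEmbeddingHom ι).comp
    (MulAction.toPermHom (Multiplicative (Fin 3 → ZMod p)) (Fin 3 × ZMod p))
  refine ⟨ψ.codRestrict _ fun v => ?_, (MonoidHom.injective_codRestrict _ _ _).mpr
    ((Equiv.Perm.viaEmbeddingHom_injective ι).comp fun v w e => funext fun i => ?_)⟩
  · have : v ^ p = 1 := by
      change p • v.toAdd = 0
      ext
      simp
    have : Equiv.Perm.sign (ψ v) ^ p = 1 := by rw [← map_pow, ← map_pow, this]; simp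
    rw [Equiv.Perm.mem_alternatingGroup]
    rcases Int.units_eq_one_or (Equiv.Perm.sign (ψ v)) with e | e
    · exact e
    · simp [e, o.neg_one_pow] at this
  · exact add_right_cancel (congrArg Prod.snd congr($e (i, 0)))

lemma alt (h : 10000 ≤ n) [Finite V] (X : SimpleGraph V) (e : (X ≃g X) ≃* alternatingGroup (Fin n)) :
    ∃ t : ℕ, n / (2000 * Real.log n) ≤ t ∧ KM X.Adj (Fin t) := by
  obtain ⟨p, pp, p1, p2⟩ := Nat.exists_prime_lt_and_le_two_mul (n / 6) (by omega)
  have := Fact.mk pp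
  obtain ⟨φ, i⟩ := cube (n := n) (pp.odd_of_ne_two (by omega)) (by omega)
  have := alternatingGroup.isSimpleGroup (α := Fin n) (by simp; omega)
  obtain ⟨d, d1, d2⟩ : ∃ d, 6 * d + 3 ≤ p ∧ p ≤ 6 * d + 8 := ⟨(p - 3) / 6, by omega⟩
  have d3 : (276 : ℝ) ≤ d := by exact_mod_cast (by omega : 276 ≤ d)
  have d4 : (n : ℝ) ≤ 40 * d := by exact_mod_cast (by omega : n ≤ 40 * d)
  have d5 : (d : ℝ) ≤ n := by exact_mod_cast (by omega : d ≤ n)
  have l1 : 1 ≤ Real.log d := by
    rw [Real.le_log_iff_exp_le (by linarith)]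
    linarith [Real.exp_one_lt_d9]
  have l2 : 24 * Real.log d ≤ d := by
    have := Real.log_le_sub_one_of_pos (show (0 : ℝ) < d / 2 ^ 8 by positivity)
    rw [Real.log_div (by linarith) (by positivity), Real.log_pow] at this
    have := Real.log_two_lt_d9
    push_cast at *
    linarith
  have l3 := Real.log_le_log (by linarith) d5
  have l4 : 1 ≤ d / (24 * Real.log d) := by rwa [one_le_div (by linarith)]
  have t1 := Nat.floor_le (zero_le_one.trans l4)
  have t2 := Nat.lt_floor_add_one (d / (24 * Real.log d))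
  have t0 := Nat.floor_pos.mpr l4
  generalize ⌊d / (24 * Real.log d)⌋₊ = t at *
  have t3 : (1 : ℝ) ≤ t := by exact_mod_cast t0
  rw [le_div_iff₀ (by linarith)] at t1
  rw [div_lt_iff₀ (by linarith)] at t2
  refine ⟨t, ?_, lower i t0 ?_ (by omega) (by linarith) d1 X e⟩
  · rw [div_le_iff₀ (by linarith)]
    nlinarith
  · have : t ≤ d := by exact_mod_cast (by nlinarith : (t : ℝ) ≤ d)
    omega

end Pool.Agent.H.MP_d4104f_co
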